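import Pool.Agent.Helper6.O3.St

/-!
# Project O3 (MP_d49380_lc), module FC: completeness of the certificates on lists
-/

set_option autoImplicit false

namespace Pool.Agent.Helper51.O3

open Pool.Agent.Helper6.O3 Filter Topology
open Pool.Agent.Helper99.DF (T TL sq chk Cert ver StVER StTRA StCMP StSND StPR1 StPRC StVP sq_TL
  T_iter_cast)
open Pool.Agent.Helper4.IL (Inp Sol Std InfLC LC)

/-- Common denominators. -/
lemma comden (p q r : ℚ) : ∃ e3 e2 e1 e0 : ℤ, 0 < e3 ∧ (e2 : ℚ) = p * e3 ∧ (e1 : ℚ) = q * e3 ∧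
    (e0 : ℚ) = r * e3 := by
  have hp : (p.den : ℚ) ≠ 0 := by exact_mod_cast p.den_nz
  have hq : (q.den : ℚ) ≠ 0 := by exact_mod_cast q.den_nz
  have hr : (r.den : ℚ) ≠ 0 := by exact_mod_cast r.den_nz
  have ep : p * p.den = p.num := Rat.mul_den_eq_num p
  have eq : q * q.den = q.num := Rat.mul_den_eq_num q
  have er : r * r.den = r.num := Rat.mul_den_eq_num r
  refine ⟨p.den * q.den * r.den, p.num * q.den * r.den, q.num * p.den * r.den,
    r.num * p.den * q.den, ?_, ?_, ?_, ?_⟩
  · have h1 := p.den_pos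
    have h2 := q.den_pos
    have h3 := r.den_pos
    positivity
  · push_cast
    rw [← ep]
    ring
  · push_cast
    rw [← eq]
    ring
  · push_cast
    rw [← er]
    ring

lemma intInf (b : ℕ → ℤ) (h : Inf (fun k => (b k : ℝ))) : Inf b := by
  intro t k
  have h1 := h t k
  rw [T_iter_cast] at h1
  exact_mod_cast h1

lemma sq_take (L : List ℤ) (n : ℕ) (k : ℕ) :
    sq (L.take n) k = if k < n then sq L k else 0 := by
  unfold Pool.Agent.Helper99.DF.sq
  rw [List.getD_eq_getElem?_getD, List.getElem?_take, List.getD_eq_getElem?_getD]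
  split_ifs <;> simp

lemma sq_cons_zero (l : List ℤ) : sq (0 :: l) 0 = 0 := by
  simp [Pool.Agent.Helper99.DF.sq]

lemma sq_cons_succ (l : List ℤ) (k : ℕ) : sq (0 :: l) (k + 1) = sq l k := by
  simp [Pool.Agent.Helper99.DF.sq]

/-- The shifted list is `w` times the shifted sequence. -/
lemma sq_L {a : ℕ → ℚ} {w : ℕ} {l : List ℤ} (h0 : sq l 0 = 0)
    (h : ∀ k, k + 1 < l.length → (sq l (k + 1) : ℚ) = w * a k) :
    ∀ k, k < (0 :: l).length → (sq (0 :: l) k : ℚ) = w * sh a k := by
  intro k hk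
  match k with
  | 0 => rw [sq_cons_zero]; simp [sh]
  | 1 => rw [sq_cons_succ, h0]; simp [sh]
  | k + 2 =>
    rw [sq_cons_succ, h k (by simp at hk; omega)]
    simp [sh]

lemma ka_sh {a : ℕ → ℚ} {N : ℕ} {p q r : ℚ}
    (h : ∀ n, N ≤ n → a (n + 3) = p * a (n + 2) + q * a (n + 1) + r * a n) :
    ∀ m, N + 2 ≤ m → ka p q r (sh a) m = 0 := by
  intro m hm
  obtain ⟨n, rfl⟩ := Nat.exists_eq_add_of_le' (show 2 ≤ m by omega)
  have := h n (by omega)
  simp only [ka, sh, show ¬ (n + 2 + 3 < 2) by omega, show ¬ (n + 2 + 2 < 2) by omega,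
    show ¬ (n + 2 + 1 < 2) by omega, show ¬ (n + 2 < 2) by omega, if_false,
    show n + 2 + 3 - 2 = n + 3 by omega, show n + 2 + 2 - 2 = n + 2 by omega,
    show n + 2 + 1 - 2 = n + 1 by omega, show n + 2 - 2 = n by omega]
  linarith

/-- `T` of the list. -/
lemma T_L {b : ℕ → ℤ} {c : ℕ → ℚ} {w : ℚ} {M : ℕ} (h : ∀ k, k < M → (b k : ℚ) = w * c k) :
    ∀ k, k + 1 < M → ((T b k : ℤ) : ℚ) = w ^ 2 * T c k := by
  intro k hk
  unfold T
  push_cast
  rw [h k (by omega), h (k - 1) (by omega), h (k + 1) hk]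
  ring

theorem hFC (hBC : StBC) (hAC : StAC) (hSP : StSP) (hTR : StTR) (hCK : StCK) (hVER : StVER) :
    StFC := by
  intro x a hS hSol hI hrec
  obtain ⟨N, p, q, r, hrec⟩ := hrec
  have hcI : Inf (sh a) := (hTR a).2 hI
  have hka := ka_sh hrec
  have hc0 : sh a 0 = 0 := by simp [sh]
  have hc1 : sh a 1 = 0 := by simp [sh]
  obtain ⟨hV1, hV2⟩ := hVER x a hS hSol
  have hcp : ∀ k, 0 ≤ sh a k := fun k => hcI 0 k
  have hTp : ∀ k, 0 ≤ T (sh a) k := fun k => hcI 1 k
  have hIR : Inf (fun k => (sh a k : ℝ)) := Inf_cast.2 hcI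
  by_cases hdeg : ∃ k0, N + 4 ≤ k0 ∧ Th (sh a) k0 = 0
  · -- the degenerate case
    obtain ⟨k0, hk0, hk0z⟩ := hdeg
    have hTh : ∀ k, k0 ≤ k → Th (sh a) k = 0 := by
      intro k hk
      induction k, hk using Nat.le_induction with
      | base => exact hk0z
      | succ k hk ih =>
        rw [Th_step p q r (sh a) k (by omega) (hka _ (by omega)) (hka _ (by omega)), ih,
          hka _ (by omega)]
        ring
    obtain ⟨n1, P, Q, hn1, hP, hQ, hPQ, hr2, hPc⟩ := hAC (sh a) k0 hcI hTh
    obtain ⟨n, rfl⟩ := Nat.exists_eq_add_of_le' (show 1 ≤ n1 by omega)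
    obtain ⟨e3, e2, e1, e0, he3, he2, he1, he0⟩ := comden P (-Q) 0
    have he3q : (0 : ℚ) < e3 := by exact_mod_cast he3
    have he0z : e0 = 0 := by
      have : (e0 : ℚ) = 0 := by rw [he0]; ring
      exact_mod_cast this
    obtain ⟨w, l, hlen, hver, -⟩ := hV2 (n + Bd x + 10)
    obtain ⟨hseq, -⟩ := hV1 w l hver
    have hw : (0 : ℚ) < w := by exact_mod_cast hver.1
    have hL := sq_L hver.2.1 hseq
    have hLlen : (0 :: l).length = l.length + 1 := rfl
    -- the second iterate
    have hD : ∀ i, n + 1 + 1 ≤ i → T (sh a) (i + 1) = Q * T (sh a) i := by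
      intro i hi
      obtain ⟨j, rfl⟩ := Nat.exists_eq_add_of_le' (show 1 ≤ i by omega)
      have h1 := hr2 j (by omega)
      have h2 := hr2 (j + 1) (by omega)
      simp only [T, show j + 1 + 1 - 1 = j + 1 by omega, show j + 1 - 1 = j by omega]
      simp only [show j + 1 + 2 = j + 3 by omega, show j + 1 + 1 = j + 2 by omega,
        show j + 2 + 1 = j + 3 by omega] at h1 h2 ⊢
      rw [h2]
      linear_combination (sh a (j + 2)) * h1
    have hTT0 : ∀ k, n + 3 ≤ k → T (T (sh a)) k = 0 := by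
      intro k hk
      obtain ⟨j, rfl⟩ := Nat.exists_eq_add_of_le' (show 1 ≤ k by omega)
      have h1 := hD j (by omega)
      have h2 := hD (j + 1) (by omega)
      show T (sh a) (j + 1) ^ 2 - T (sh a) (j + 1 - 1) * T (sh a) (j + 1 + 1) = 0
      rw [show j + 1 - 1 = j by omega, h2, h1]
      ring
    have hTL1 := T_L hL
    have hTL2 : ∀ k, k < l.length → (sq (TL (0 :: l)) k : ℚ) = (w : ℚ) ^ 2 * T (sh a) k := by
      intro k hk
      rw [sq_TL]
      exact hTL1 k (by rw [hLlen]; omega)
    have hTL3 := T_L hTL2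
    have hfin : ∀ k, (sq ((TL (TL (0 :: l))).take (n + 3)) k : ℚ) =
        (w : ℚ) ^ 4 * T (T (sh a)) k := by
      intro k
      rw [sq_take]
      split_ifs with hk
      · rw [sq_TL, hTL3 k (by omega)]
        ring
      · rw [hTT0 k (by omega)]
        simp
    have hI2 : Inf (fun k => ((T^[2] (sh a)) k : ℝ)) := Inf_cast.2 (Inf_iter hcI 2)
    have hI3 := Inf_scale (la := (w : ℝ) ^ 4) (mu := 1) hI2
      (by show ((T^[2] (sh a)) 0 : ℝ) = 0; exact_mod_cast T_zero0 hc0 2) (by positivity)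
      zero_le_one
    have hI4 : Inf (sq ((TL (TL (0 :: l))).take (n + 3))) := by
      apply intInf
      have : (fun k => ((sq ((TL (TL (0 :: l))).take (n + 3)) k : ℤ) : ℝ)) =
          fun k => (w : ℝ) ^ 4 * 1 ^ k * ((T^[2] (sh a)) k : ℝ) := by
        funext k
        have h1 := hfin k
        have h2 : (T^[2] (sh a)) k = T (T (sh a)) k := rfl
        rw [h2, one_pow, mul_one]
        have h3 : (((sq ((TL (TL (0 :: l))).take (n + 3)) k : ℤ) : ℚ) : ℝ) =
            (((w : ℚ) ^ 4 * T (T (sh a)) k : ℚ) : ℝ) := by rw [h1]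
        push_cast at h3
        exact h3
      rw [this]
      exact hI3
    have hI5 : sq ((TL (TL (0 :: l))).take (n + 3)) 0 = 0 := by
      have h1 := hfin 0
      have h2 : T (T (sh a)) 0 = 0 := by
        have := T_zero0 hc0 2
        exact this
      rw [h2, mul_zero] at h1
      exact_mod_cast h1
    obtain ⟨t, cc, hcc⟩ := hCK.2 _ hI5 hI4
    refine ⟨w, l, ((e3, e2), (e1, e0)), n, 0, t, cc, hver, ⟨by rw [hLlen]; omega, ?_⟩, he3,
      Or.inr ⟨⟨he3, ?_, ?_, he0z, ?_⟩, hcc, ?_, ?_⟩⟩
    · intro i hi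
      rw [List.mem_range] at hi
      show e3 * sq (0 :: l) (n + i + 3) = e2 * sq (0 :: l) (n + i + 2) +
        e1 * sq (0 :: l) (n + i + 1) + e0 * sq (0 :: l) (n + i)
      have h1 := hr2 (n + i + 1) (by omega)
      have h2 : ((e3 * sq (0 :: l) (n + i + 3) : ℤ) : ℚ) = ((e2 * sq (0 :: l) (n + i + 2) +
        e1 * sq (0 :: l) (n + i + 1) + e0 * sq (0 :: l) (n + i) : ℤ) : ℚ) := by
        push_cast
        rw [hL _ (by rw [hLlen]; omega), hL (n + i + 2) (by rw [hLlen]; omega),
          hL (n + i + 1) (by rw [hLlen]; omega), he2, he1, he0z]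
        rw [show n + i + 1 + 2 = n + i + 3 by omega, show n + i + 1 + 1 = n + i + 2 by omega] at h1
        rw [h1]
        push_cast
        ring
      exact_mod_cast h2
    · show 0 ≤ e2
      have : (0 : ℚ) ≤ e2 := by rw [he2]; positivity
      exact_mod_cast this
    · show e1 ≤ 0
      have : (e1 : ℚ) ≤ 0 := by
        rw [he1]
        have : 0 ≤ Q * e3 := by positivity
        linarith
      exact_mod_cast this
    · show 0 ≤ e2 ^ 2 + 4 * e1 * e3
      have : (0 : ℚ) ≤ ((e2 ^ 2 + 4 * e1 * e3 : ℤ) : ℚ) := by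
        push_cast
        rw [he2, he1]
        have h1 : 0 ≤ (P ^ 2 - 4 * Q) * (e3 : ℚ) ^ 2 :=
          mul_nonneg (by linarith) (by positivity)
        have h2 : (P * (e3 : ℚ)) ^ 2 + 4 * (-Q * e3) * e3 = (P ^ 2 - 4 * Q) * (e3 : ℚ) ^ 2 := by
          ring
        rw [h2]
        exact h1
      exact_mod_cast this
    · show e2 * sq (0 :: l) (n + 1) ≤ 2 * e3 * sq (0 :: l) (n + 2)
      have h2 : ((e2 * sq (0 :: l) (n + 1) : ℤ) : ℚ) ≤ ((2 * e3 * sq (0 :: l) (n + 2) : ℤ) : ℚ) := by
        push_cast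
        rw [hL _ (by rw [hLlen]; omega), hL (n + 2) (by rw [hLlen]; omega), he2]
        have h3 : 0 ≤ (e3 : ℚ) * w * (2 * sh a (n + 2) - P * sh a (n + 1)) := by
          apply mul_nonneg (by positivity)
          have := hPc
          rw [show n + 1 + 1 = n + 2 by omega] at this
          linarith
        nlinarith [h3]
      exact_mod_cast h2
    · intro k hk
      rw [List.mem_range] at hk
      constructor
      · have : (0 : ℚ) ≤ sq (0 :: l) k := by
          rw [hL k (by rw [hLlen]; omega)]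
          exact mul_nonneg hw.le (hcp k)
        exact_mod_cast this
      · have : (0 : ℚ) ≤ sq (TL (0 :: l)) k := by
          rw [hTL2 k (by omega)]
          exact mul_nonneg (by positivity) (hTp k)
        exact_mod_cast this
  · -- the nondegenerate case
    push Not at hdeg
    obtain ⟨n, hn0, hn1, hn2, hnr, hr, halt⟩ := hBC (fun k => (sh a k : ℝ)) p q r (N + 4)
      (by show ((sh a 0 : ℚ) : ℝ) = 0; rw [hc0]; simp)
      (by show ((sh a 1 : ℚ) : ℝ) = 0; rw [hc1]; simp) hIR
      (by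
        intro m hm
        have h1 := hka m (by omega)
        have h2 : ((ka p q r (sh a) m : ℚ) : ℝ) = 0 := by rw [h1]; simp
        simpa [ka] using h2)
      (by
        intro k hk
        have h1 := hdeg k hk
        have h2 : ((Th (sh a) k : ℚ) : ℝ) ≠ 0 := by exact_mod_cast h1
        simpa [Th] using h2)
    have hn0' : sh a n = 0 := by exact_mod_cast hn0
    have hn1' : sh a (n + 1) = 0 := by exact_mod_cast hn1
    have hn2' : 0 < sh a (n + 2) := by exact_mod_cast hn2
    have hr' : 0 < r := by exact_mod_cast hr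
    have hnr' : ∀ m, n ≤ m → ka p q r (sh a) m = 0 := by
      intro m hm
      have h1 := hnr m hm
      have h2 : ((ka p q r (sh a) m : ℚ) : ℝ) = 0 := by
        simpa [ka] using h1
      exact_mod_cast h2
    have hIlb : Inf (lb n (fun k => (sh a k : ℝ))) := ((hSP _ n hn0 hn1).1 hIR).1
    obtain ⟨e3, e2, e1, e0, he3, he2, he1, he0⟩ := comden p q r
    have he3q : (0 : ℚ) < e3 := by exact_mod_cast he3
    -- the choice of m
    obtain ⟨m, hm⟩ : ∃ m : ℕ, (0 < p ∧ q < 0 ∧ 0 ≤ dis p q r) ∨
        (n + 3 ≤ m ∧ sh a m = 0 ∧ sh a (m + 1) = 0) := by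
      rcases halt with ⟨h1, h2, h3⟩ | ⟨m, h1, h2, h3⟩
      · refine ⟨0, Or.inl ⟨by exact_mod_cast h1, by exact_mod_cast h2, ?_⟩⟩
        have : ((dis p q r : ℚ) : ℝ) = dis (p : ℝ) q r := by simp [dis]
        rw [← this] at h3
        exact_mod_cast h3
      · exact ⟨m, Or.inr ⟨h1, by exact_mod_cast h2, by exact_mod_cast h3⟩⟩
    obtain ⟨w, l, hlen, hver, -⟩ := hV2 (n + m + Bd x + 10)
    obtain ⟨hseq, -⟩ := hV1 w l hver
    have hw : (0 : ℚ) < w := by exact_mod_cast hver.1
    have hL := sq_L hver.2.1 hseq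
    have hLlen : (0 :: l).length = l.length + 1 := rfl
    have hTL1 := T_L hL
    have hTL2 : ∀ k, k < l.length → (sq (TL (0 :: l)) k : ℚ) = (w : ℚ) ^ 2 * T (sh a) k := by
      intro k hk
      rw [sq_TL]
      exact hTL1 k (by rw [hLlen]; omega)
    have hzero : ∀ k, k < (0 :: l).length → sh a k = 0 → sq (0 :: l) k = 0 := by
      intro k hk h
      have h1 := hL k hk
      rw [h, mul_zero] at h1
      exact_mod_cast h1
    have hI3 := Inf_scale (la := (w : ℝ)) (mu := 1) hIlb
      (by simp [lb, hc0]) (by positivity) zero_le_one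
    have hI4 : Inf (sq ((0 :: l).take (n + 1))) := by
      apply intInf
      have : (fun k => ((sq ((0 :: l).take (n + 1)) k : ℤ) : ℝ)) =
          fun k => (w : ℝ) * 1 ^ k * lb n (fun k => (sh a k : ℝ)) k := by
        funext k
        rw [sq_take, one_pow, mul_one]
        unfold lb
        by_cases hk : k ≤ n
        · rw [if_pos (by omega), if_pos hk]
          have h1 := hL k (by rw [hLlen]; omega)
          have h3 : (((sq (0 :: l) k : ℤ) : ℚ) : ℝ) = (((w : ℚ) * sh a k : ℚ) : ℝ) := by rw [h1]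
          push_cast at h3
          exact h3
        · rw [if_neg (by omega), if_neg hk]
          simp
      rw [this]
      exact hI3
    have hI5 : sq ((0 :: l).take (n + 1)) 0 = 0 := by
      rw [sq_take, if_pos (by omega), sq_cons_zero]
    obtain ⟨t, cc, hcc⟩ := hCK.2 _ hI5 hI4
    refine ⟨w, l, ((e3, e2), (e1, e0)), n, m, t, cc, hver, ⟨by rw [hLlen]; omega, ?_⟩, he3,
      Or.inl ⟨⟨hzero n (by rw [hLlen]; omega) hn0', hzero (n + 1) (by rw [hLlen]; omega) hn1', ?_,
        he3, ?_⟩, hcc, ?_⟩⟩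
    · intro i hi
      rw [List.mem_range] at hi
      show e3 * sq (0 :: l) (n + i + 3) = e2 * sq (0 :: l) (n + i + 2) +
        e1 * sq (0 :: l) (n + i + 1) + e0 * sq (0 :: l) (n + i)
      have h1 := hnr' (n + i) (by omega)
      have h2 : ((e3 * sq (0 :: l) (n + i + 3) : ℤ) : ℚ) = ((e2 * sq (0 :: l) (n + i + 2) +
        e1 * sq (0 :: l) (n + i + 1) + e0 * sq (0 :: l) (n + i) : ℤ) : ℚ) := by
        push_cast
        rw [hL _ (by rw [hLlen]; omega), hL (n + i + 2) (by rw [hLlen]; omega),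
          hL (n + i + 1) (by rw [hLlen]; omega), hL (n + i) (by rw [hLlen]; omega), he2, he1, he0]
        unfold ka at h1
        linear_combination (e3 : ℚ) * w * h1
      exact_mod_cast h2
    · show 0 < sq (0 :: l) (n + 2)
      have : (0 : ℚ) < sq (0 :: l) (n + 2) := by
        rw [hL _ (by rw [hLlen]; omega)]
        positivity
      exact_mod_cast this
    · show 0 < e0
      have : (0 : ℚ) < e0 := by
        rw [he0]
        positivity
      exact_mod_cast this
    · rcases hm with ⟨h1, h2, h3⟩ | ⟨h1, h2, h3⟩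
      · left
        refine ⟨?_, ?_, ?_⟩
        · show 0 < e2
          have : (0 : ℚ) < e2 := by
            rw [he2]
            positivity
          exact_mod_cast this
        · show e1 < 0
          have : (e1 : ℚ) < 0 := by
            rw [he1]
            exact mul_neg_of_neg_of_pos h2 he3q
          exact_mod_cast this
        · have h4 : ((dz ((e3, e2), (e1, e0)) : ℤ) : ℚ) = (e3 : ℚ) ^ 4 * dis p q r := by
            unfold dz dis
            push_cast
            rw [he2, he1, he0]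
            ring
          have h5 : (0 : ℚ) ≤ ((dz ((e3, e2), (e1, e0)) : ℤ) : ℚ) := by
            rw [h4]
            positivity
          exact_mod_cast h5
      · right
        refine ⟨⟨h1, by rw [hLlen]; omega, hzero m (by rw [hLlen]; omega) h2,
          hzero (m + 1) (by rw [hLlen]; omega) h3⟩, ?_⟩
        intro k hk
        rw [List.mem_range] at hk
        constructor
        · have : (0 : ℚ) ≤ sq (0 :: l) k := by
            rw [hL k (by rw [hLlen]; omega)]
            exact mul_nonneg hw.le (hcp k)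
          exact_mod_cast this
        · have : (0 : ℚ) ≤ sq (TL (0 :: l)) k := by
            rw [hTL2 k (by omega)]
            exact mul_nonneg (by positivity) (hTp k)
          exact_mod_cast this

end Pool.Agent.Helper51.O3
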